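import Mathlib

/-!
Progression-free subsets of `F_p^n`: the type-class construction.
-/

namespace Pool.Agent.H230R2.LKP

open Finset

/-- `A` contains no nontrivial `k`-term arithmetic progression. -/
def APFree (k p n : ℕ) (A : Finset (Fin n → ZMod p)) : Prop :=
  ∀ x y : Fin n → ZMod p, y ≠ 0 → ∃ j < k, x + j • y ∉ A

/-- Dirichlet's theorem in `ZMod p`. -/
lemma dirichlet (p Q : ℕ) [hp : Fact p.Prime] (hQ : 0 < Q) (hQp : Q < p) (y : ZMod p)
    (hy : y ≠ 0) :
    ∃ l : ℕ, 0 < l ∧ l ≤ Q ∧ ∃ e : ℕ, 0 < e ∧ e ≤ p / (Q + 1) ∧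
      ((l : ZMod p) * y = e ∨ (l : ZMod p) * y = -(e : ZMod p)) := by
  have hp0 : 0 < p := hp.out.pos
  have : NeZero p := ⟨hp0.ne'⟩
  obtain ⟨j, l, hl0, hlQ, hjl⟩ := Real.exists_int_int_abs_mul_sub_le ((y.val : ℝ) / p) hQ
  have hpR : (0 : ℝ) < p := by exact_mod_cast hp0
  set E : ℤ := l * y.val - j * p with hE
  have hEabs : |(E : ℝ)| ≤ p / (Q + 1) := by
    have h1 : (E : ℝ) = (l * ((y.val : ℝ) / p) - j) * p := by
      rw [hE]; push_cast; field_simp
    rw [h1, abs_mul, abs_of_pos hpR]
    calc |(l : ℝ) * ((y.val : ℝ) / p) - j| * p ≤ 1 / ((Q : ℝ) + 1) * p := by gcongr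
      _ = p / (Q + 1) := by ring
  have hEcast : ((E : ℤ) : ZMod p) = (l : ZMod p) * y := by
    rw [hE]; push_cast
    simp
  have hl' : ((l.toNat : ℕ) : ℤ) = l := Int.toNat_of_nonneg hl0.le
  have hlne : ((l : ℤ) : ZMod p) ≠ 0 := by
    rw [Ne, ZMod.intCast_zmod_eq_zero_iff_dvd]
    intro hd
    have := Int.le_of_dvd hl0 hd
    omega
  have hE0 : E ≠ 0 := by
    intro h0
    rw [h0] at hEcast
    simp only [Int.cast_zero] at hEcast
    rcases mul_eq_zero.mp hEcast.symm with h | h
    · exact hlne h
    · exact hy h
  refine ⟨l.toNat, by omega, by omega, E.natAbs, Int.natAbs_pos.mpr hE0, ?_, ?_⟩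
  · rw [Nat.le_div_iff_mul_le (by omega)]
    have h2 : ((E.natAbs : ℕ) : ℝ) ≤ p / (Q + 1) := by
      rw [Nat.cast_natAbs]; push_cast; exact hEabs
    rw [le_div_iff₀ (by positivity)] at h2
    exact_mod_cast h2
  · have hlcast : ((l.toNat : ℕ) : ZMod p) = ((l : ℤ) : ZMod p) := by
      have h3 : ((l.toNat : ℕ) : ZMod p) = (((l.toNat : ℕ) : ℤ) : ZMod p) :=
        (Int.cast_natCast _).symm
      rw [h3, hl']
    rw [hlcast, ← hEcast]
    rcases Int.natAbs_eq E with h | h
    · left
      conv_lhs => rw [h]
      simp
    · right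
      conv_lhs => rw [h]
      simp

/-- The type class with symbols below `m`. -/
def typeClass (p n m : ℕ) [NeZero p] (τ : Fin m → ℕ) : Finset (Fin n → ZMod p) :=
  univ.filter fun x => (∀ i, (x i).val < m) ∧
    ∀ s : Fin m, (univ.filter fun i => (x i).val = (s : ℕ)).card = τ s

lemma typeClass_apFree (k p n Q m : ℕ) [hp : Fact p.Prime] (hQ : 0 < Q) (hk : 2 * Q + 1 ≤ k)
    (hkp : k ≤ p) (hm : m = p - p / (Q + 1)) (τ : Fin m → ℕ) :
    APFree k p n (typeClass p n m τ) := by
  intro x y hy
  by_contra hcon
  push Not at hcon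
  have hmem : ∀ j < k, (∀ i, ((x + j • y) i).val < m) ∧
      ∀ s : Fin m, (univ.filter fun i => ((x + j • y) i).val = (s : ℕ)).card = τ s := by
    intro j hj
    have := hcon j hj
    rw [typeClass, mem_filter] at this
    exact this.2
  -- main claim
  have key : ∀ t : ℕ, ∀ s : ℕ, s + t = m → ∀ s', s ≤ s' → s' < m → ∀ j < k, ∀ i,
      ((x + j • y) i).val = s' → y i = 0 := by
    intro t
    induction t with
    | zero => intro s hs s' h1 h2; omega
    | succ t ih =>
      intro s hs s' hs' hs'm
      by_cases hss : s + 1 ≤ s'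
      · exact ih (s + 1) (by omega) s' hss hs'm
      · have hs'eq : s' = s := by omega
        subst hs'eq
        have ih' := ih (s' + 1) (by omega)
        -- the middle term
        have hmid : ∀ i, ((x + Q • y) i).val = s' → y i = 0 := by
          intro i hi
          by_contra hyi
          obtain ⟨l, hl0, hlQ, e, he0, heg, hle⟩ := dirichlet p Q hQ (by omega) (y i) hyi
          have hsep : s' + e < p := by omega
          have hxi : (x i) + (Q : ZMod p) * y i = (s' : ZMod p) := by
            have h1 : (x + Q • y) i = ((s' : ℕ) : ZMod p) := by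
              rw [← hi]; simp
            simpa using h1
          have hval : ∀ j < k, (x + j • y) i = ((s' + e : ℕ) : ZMod p) → False := by
            intro j hj hj'
            have hv : ((x + j • y) i).val = s' + e := by
              rw [hj', ZMod.val_natCast, Nat.mod_eq_of_lt hsep]
            have hlt := (hmem j hj).1 i
            rw [hv] at hlt
            exact hyi (ih' (s' + e) (by omega) hlt j hj i hv)
          rcases hle with h | h
          · apply hval (Q + l) (by omega)
            have : (x + (Q + l) • y) i = (x i) + (Q : ZMod p) * y i + (l : ZMod p) * y i := by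
              simp; ring
            rw [this, hxi, h]; push_cast; ring
          · apply hval (Q - l) (by omega)
            have : (x + (Q - l) • y) i = (x i) + (Q : ZMod p) * y i - (l : ZMod p) * y i := by
              simp [Nat.cast_sub hlQ]; ring
            rw [this, hxi, h]; push_cast; ring
        intro j hj i hi
        -- equal counts
        have hsub : (univ.filter fun i => ((x + Q • y) i).val = s') ⊆
            (univ.filter fun i => ((x + j • y) i).val = s') := by
          intro i' hi'
          rw [mem_filter] at hi' ⊢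
          refine ⟨mem_univ _, ?_⟩
          have h0 := hmid i' hi'.2
          have : (x + j • y) i' = (x + Q • y) i' := by simp [h0]
          rw [this]; exact hi'.2
        have hcard : (univ.filter fun i => ((x + j • y) i).val = s').card ≤
            (univ.filter fun i => ((x + Q • y) i).val = s').card := by
          have h1 := (hmem j hj).2 ⟨s', hs'm⟩
          have h2 := (hmem Q (by omega)).2 ⟨s', hs'm⟩
          simp only at h1 h2
          rw [h1, h2]
        have heq := Finset.eq_of_subset_of_card_le hsub hcard
        have hi2 : i ∈ (univ.filter fun i => ((x + Q • y) i).val = s') := by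
          rw [heq, mem_filter]; exact ⟨mem_univ _, hi⟩
        rw [mem_filter] at hi2
        exact hmid i hi2.2
  apply hy
  funext i
  have h0 := (hmem 0 (by omega)).1 i
  exact key m 0 (by omega) _ (Nat.zero_le _) h0 0 (by omega) i rfl

/-- There is a large type class. -/
lemma exists_typeClass (p n m : ℕ) [NeZero p] (hm : m ≤ p) :
    ∃ τ : Fin m → ℕ, m ^ n ≤ (n + 1) ^ m * (typeClass p n m τ).card := by
  classical
  -- the box
  set B : Finset (Fin n → ZMod p) := univ.filter fun x => ∀ i, (x i).val < m with hB
  have hBcard : B.card = m ^ n := by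
    have h1 : B = Fintype.piFinset (fun _ : Fin n => (univ.filter fun a : ZMod p => a.val < m)) := by
      ext x; simp [hB]
    rw [h1, Fintype.card_piFinset]
    have h2 : (univ.filter fun a : ZMod p => a.val < m).card = m := by
      have : (univ.filter fun a : ZMod p => a.val < m) =
          (range m).image (fun t : ℕ => (t : ZMod p)) := by
        ext a
        simp only [mem_filter, mem_univ, true_and, mem_image, mem_range]
        constructor
        · intro h; exact ⟨a.val, h, by simp⟩
        · rintro ⟨t, ht, rfl⟩
          rw [ZMod.val_natCast, Nat.mod_eq_of_lt (by omega)]; exact ht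
      rw [this, card_image_of_injOn, card_range]
      intro a ha b hb hab
      simp only [coe_range, Set.mem_Iio] at ha hb
      have := congrArg ZMod.val hab
      rwa [ZMod.val_natCast, ZMod.val_natCast, Nat.mod_eq_of_lt (by omega),
        Nat.mod_eq_of_lt (by omega)] at this
    rw [h2]; simp
  -- types
  set T : Finset (Fin m → ℕ) := Fintype.piFinset fun _ => range (n + 1) with hT
  have hTcard : T.card = (n + 1) ^ m := by
    rw [hT, Fintype.card_piFinset]; simp
  let ty : (Fin n → ZMod p) → (Fin m → ℕ) := fun x s =>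
    (univ.filter fun i => (x i).val = (s : ℕ)).card
  have hmaps : ∀ x ∈ B, ty x ∈ T := by
    intro x _
    rw [hT, Fintype.mem_piFinset]
    intro s
    rw [mem_range, Nat.lt_succ_iff]
    calc (univ.filter fun i => (x i).val = (s : ℕ)).card ≤ (univ : Finset (Fin n)).card :=
          card_filter_le _ _
      _ = n := by simp
  have hsum : B.card = ∑ τ ∈ T, (B.filter fun x => ty x = τ).card :=
    card_eq_sum_card_fiberwise hmaps
  by_contra hcon
  push Not at hcon
  have hfib : ∀ τ ∈ T, (n + 1) ^ m * (B.filter fun x => ty x = τ).card < m ^ n := by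
    intro τ _
    have h1 : (B.filter fun x => ty x = τ) ⊆ typeClass p n m τ := by
      intro x hx
      rw [mem_filter, hB, mem_filter] at hx
      rw [typeClass, mem_filter]
      refine ⟨mem_univ _, hx.1.2, ?_⟩
      intro s
      exact congrFun hx.2 s
    calc (n + 1) ^ m * (B.filter fun x => ty x = τ).card
        ≤ (n + 1) ^ m * (typeClass p n m τ).card := by gcongr
      _ < m ^ n := hcon τ
  have hTne : T.Nonempty := by
    rw [← card_pos, hTcard]; positivity
  have h2 : ∑ τ ∈ T, (n + 1) ^ m * (B.filter fun x => ty x = τ).card < ∑ _τ ∈ T, m ^ n :=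
    sum_lt_sum_of_nonempty hTne hfib
  rw [← mul_sum, ← hsum, hBcard, sum_const, hTcard, smul_eq_mul] at h2
  exact lt_irrefl _ h2

end Pool.Agent.H230R2.LKP
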